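import Mathlib

namespace Pool.Agent.Helper170.Weyl

open Finset

/-- reorganising a double sum by differences -/
theorem double_sum (g : ℕ → ℕ → ℂ) (N : ℕ) :
    ∑ m ∈ range N, ∑ n ∈ range N, g m n = ∑ n ∈ range N, g n n +
      ∑ l ∈ Ico 1 N, ∑ n ∈ range (N - l), (g (n + l) n + g n (n + l)) := by
  induction N with
  | zero => simp
  | succ N ih =>
    have h1 : ∑ m ∈ range (N + 1), ∑ n ∈ range (N + 1), g m n =
        ∑ m ∈ range N, ∑ n ∈ range N, g m n + ∑ m ∈ range N, g m N +
          (∑ n ∈ range N, g N n + g N N) := by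
      rw [sum_range_succ, sum_range_succ (fun n => g N n)]
      simp_rw [sum_range_succ (fun n => g _ n)]
      rw [sum_add_distrib]
    have h2 : ∑ l ∈ Ico 1 (N + 1), ∑ n ∈ range (N + 1 - l), (g (n + l) n + g n (n + l)) =
        ∑ l ∈ Ico 1 N, ∑ n ∈ range (N - l), (g (n + l) n + g n (n + l)) +
          (∑ m ∈ range N, g m N + ∑ n ∈ range N, g N n) := by
      have h3 : ∀ l ∈ Ico 1 (N + 1), ∑ n ∈ range (N + 1 - l), (g (n + l) n + g n (n + l)) =
          ∑ n ∈ range (N - l), (g (n + l) n + g n (n + l)) + (g N (N - l) + g (N - l) N) := by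
        intro l hl
        rw [mem_Ico] at hl
        have h4 : N + 1 - l = (N - l) + 1 := by omega
        rw [h4, sum_range_succ]
        have h5 : N - l + l = N := by omega
        rw [h5]
      rw [sum_congr rfl h3, sum_add_distrib]
      congr 1
      · cases N with
        | zero => simp
        | succ N =>
          rw [sum_Ico_succ_top (by omega)]
          simp
      · rw [sum_add_distrib, add_comm]
        congr 1
        · rw [sum_Ico_eq_sum_range]
          have : N + 1 - 1 = N := by omega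
          rw [this, ← sum_range_reflect (fun m => g m N)]
          apply sum_congr rfl
          intro x hx
          rw [mem_range] at hx
          congr 1
          omega
        · rw [sum_Ico_eq_sum_range]
          have : N + 1 - 1 = N := by omega
          rw [this, ← sum_range_reflect (fun m => g N m)]
          apply sum_congr rfl
          intro x hx
          rw [mem_range] at hx
          congr 1
          omega
    rw [h1, h2, ih, sum_range_succ (fun n => g n n)]
    ring

theorem vdc (a : ℕ → ℂ) (ha : ∀ n, ‖a n‖ = 1) (N : ℕ) :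
    ‖∑ n ∈ range N, a n‖ ^ 2 ≤ N + 2 * ∑ l ∈ Ico 1 N,
      ‖∑ n ∈ range (N - l), a (n + l) * (starRingEnd ℂ) (a n)‖ := by
  have h1 : ((‖∑ n ∈ range N, a n‖ ^ 2 : ℝ) : ℂ) =
      ∑ m ∈ range N, ∑ n ∈ range N, a m * (starRingEnd ℂ) (a n) := by
    push_cast
    rw [← Complex.mul_conj', map_sum, sum_mul_sum]
  rw [double_sum (fun m n => a m * (starRingEnd ℂ) (a n))] at h1
  have h2 : ‖∑ n ∈ range N, a n‖ ^ 2 = ‖((‖∑ n ∈ range N, a n‖ ^ 2 : ℝ) : ℂ)‖ := by
    rw [Complex.norm_real, Real.norm_of_nonneg (by positivity)]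
  rw [h2, h1]
  refine (norm_add_le _ _).trans ?_
  apply add_le_add
  · refine (norm_sum_le _ _).trans ?_
    have : ∀ n ∈ range N, ‖a n * (starRingEnd ℂ) (a n)‖ = 1 := by
      intro n _
      rw [norm_mul, RCLike.norm_conj, ha, one_mul]
    rw [sum_congr rfl this]
    simp
  · refine (norm_sum_le _ _).trans ?_
    rw [mul_sum]
    apply sum_le_sum
    intro l _
    rw [sum_add_distrib]
    refine (norm_add_le _ _).trans ?_
    rw [two_mul]
    apply add_le_add (le_refl _)
    have : ∑ n ∈ range (N - l), a n * (starRingEnd ℂ) (a (n + l)) =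
        (starRingEnd ℂ) (∑ n ∈ range (N - l), a (n + l) * (starRingEnd ℂ) (a n)) := by
      rw [map_sum]
      apply sum_congr rfl
      intro n _
      rw [map_mul, Complex.conj_conj, mul_comm]
    rw [this, RCLike.norm_conj]

/-- additive character -/
noncomputable def e (x : ℝ) : ℂ := Complex.exp (2 * Real.pi * Complex.I * (x : ℂ))

theorem e_add (x y : ℝ) : e (x + y) = e x * e y := by
  unfold e
  rw [← Complex.exp_add]
  congr 1
  push_cast
  ring

theorem norm_e (x : ℝ) : ‖e x‖ = 1 := by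
  unfold e
  have : (2 * Real.pi * Complex.I * (x : ℂ)) = ((2 * Real.pi * x : ℝ) : ℂ) * Complex.I := by
    push_cast; ring
  rw [this, Complex.norm_exp_ofReal_mul_I]

theorem conj_e (x : ℝ) : (starRingEnd ℂ) (e x) = e (-x) := by
  unfold e
  rw [← Complex.exp_conj]
  congr 1
  rw [map_mul, map_mul, map_mul, Complex.conj_ofReal, Complex.conj_ofReal, Complex.conj_I,
    Complex.ofReal_neg, map_ofNat]
  ring

theorem e_int (k : ℤ) : e k = 1 := by
  unfold e
  rw [Complex.exp_eq_one_iff]
  exact ⟨k, by push_cast; ring⟩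

theorem e_nat_mul (n : ℕ) (x : ℝ) : e (n * x) = e x ^ n := by
  unfold e
  rw [← Complex.exp_nat_mul]
  congr 1
  push_cast
  ring

theorem norm_e_sub_one (x : ℝ) : ‖e x - 1‖ = 2 * |Real.sin (Real.pi * x)| := by
  unfold e
  have : (2 * Real.pi * Complex.I * (x : ℂ)) = Complex.I * ((2 * Real.pi * x : ℝ) : ℂ) := by
    push_cast; ring
  rw [this, Complex.norm_exp_I_mul_ofReal_sub_one, norm_mul, Real.norm_eq_abs, Real.norm_eq_abs]
  congr 1
  · norm_num
  · congr 2
    ring

theorem sin_lower {x y : ℝ} (hy : 0 ≤ y) (h1 : y ≤ x) (h2 : y ≤ 1 - x) :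
    2 * y ≤ |Real.sin (Real.pi * x)| := by
  have hpi := Real.pi_pos
  rcases le_or_gt x (1 / 2) with h | h
  · have h3 := Real.mul_le_sin (x := Real.pi * x) (mul_nonneg hpi.le (hy.trans h1)) (by nlinarith)
    have h4 : 2 / Real.pi * (Real.pi * x) = 2 * x := by field_simp
    rw [h4] at h3
    refine le_trans ?_ (le_abs_self _)
    linarith
  · have h3 := Real.mul_le_sin (x := Real.pi * (1 - x)) (by nlinarith) (by nlinarith)
    have h4 : 2 / Real.pi * (Real.pi * (1 - x)) = 2 * (1 - x) := by field_simp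
    rw [h4] at h3
    have h5 : Real.sin (Real.pi * (1 - x)) = Real.sin (Real.pi * x) := by
      have : Real.pi * (1 - x) = Real.pi - Real.pi * x := by ring
      rw [this, Real.sin_pi_sub]
    rw [h5] at h3
    refine le_trans ?_ (le_abs_self _)
    linarith

theorem geom_bound {x y : ℝ} (hy : 0 < y) (h1 : y ≤ x) (h2 : y ≤ 1 - x) (M : ℕ) :
    ‖∑ n ∈ range M, e x ^ n‖ ≤ 1 / (2 * y) := by
  have h3 : 4 * y ≤ ‖e x - 1‖ := by
    rw [norm_e_sub_one]
    have := sin_lower hy.le h1 h2
    linarith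
  have h4 : 0 < ‖e x - 1‖ := by linarith
  have h5 : e x ≠ 1 := by
    intro h
    rw [h, sub_self, norm_zero] at h4
    exact lt_irrefl _ h4
  rw [geom_sum_eq h5, norm_div]
  have h6 : ‖e x ^ M - 1‖ ≤ 2 := by
    refine (norm_sub_le _ _).trans ?_
    rw [norm_pow, norm_e, one_pow, norm_one]
    norm_num
  rw [div_le_div_iff₀ h4 (by positivity)]
  nlinarith

/-- residue of `A l` modulo `q` -/
def rho (A : ℤ) (q l : ℕ) : ℕ := ((A * l) % (q : ℤ)).toNat

theorem rho_spec {A : ℤ} {q : ℕ} (hq : 1 ≤ q) (l : ℕ) :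
    ((rho A q l : ℕ) : ℤ) = (A * l) % (q : ℤ) := by
  unfold rho
  rw [Int.toNat_of_nonneg]
  apply Int.emod_nonneg
  omega

theorem rho_lt {A : ℤ} {q : ℕ} (hq : 1 ≤ q) (l : ℕ) : rho A q l < q := by
  have h1 := rho_spec (A := A) hq l
  have h2 := Int.emod_lt_of_pos (A * l) (show (0 : ℤ) < q by omega)
  omega

theorem count_fiber {A : ℤ} {q : ℕ} (hq : 1 ≤ q) (hA : IsCoprime A (q : ℤ)) (N r : ℕ) :
    ((range N).filter (fun l => rho A q l = r)).card ≤ N / q + 1 := by
  by_cases hne : ((range N).filter (fun l => rho A q l = r)).Nonempty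
  · obtain ⟨l0, hl0⟩ := hne
    rw [mem_filter] at hl0
    have hsub : (range N).filter (fun l => rho A q l = r) ⊆
        (range N).filter (fun l => l ≡ l0 [MOD q]) := by
      intro l hl
      rw [mem_filter] at hl ⊢
      refine ⟨hl.1, ?_⟩
      have h1 : (A * l) % (q : ℤ) = (A * l0) % (q : ℤ) := by
        rw [← rho_spec hq, ← rho_spec hq, hl.2, hl0.2]
      have h2 : (q : ℤ) ∣ A * ((l0 : ℤ) - l) := by
        have : A * ((l0 : ℤ) - l) = A * l0 - A * l := by ring
        rw [this]
        exact Int.ModEq.dvd (show A * l ≡ A * l0 [ZMOD q] from h1)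
      have h3 : (q : ℤ) ∣ (l0 : ℤ) - l := hA.symm.dvd_of_dvd_mul_left h2
      exact (Nat.modEq_iff_dvd).mpr h3
    refine (card_le_card hsub).trans ?_
    have h4 := Nat.count_modEq_card N (show 0 < q by omega) l0
    rw [Nat.count_eq_card_filter_range] at h4
    rw [h4]
    split_ifs <;> omega
  · rw [not_nonempty_iff_eq_empty] at hne
    rw [hne]
    simp

theorem count_set {A : ℤ} {q : ℕ} (hq : 1 ≤ q) (hA : IsCoprime A (q : ℤ)) (N : ℕ)
    (R : Finset ℕ) :
    ((range N).filter (fun l => rho A q l ∈ R)).card ≤ R.card * (N / q + 1) := by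
  have h1 : ((range N).filter (fun l => rho A q l ∈ R)).card =
      ∑ r ∈ R, (((range N).filter (fun l => rho A q l ∈ R)).filter
        (fun l => rho A q l = r)).card := by
    apply card_eq_sum_card_fiberwise
    intro l hl
    simp only [coe_filter, mem_range, Set.mem_ofPred_eq] at hl
    exact hl.2
  rw [h1, ← smul_eq_mul]
  apply sum_le_card_nsmul
  intro r _
  refine le_trans (card_le_card ?_) (count_fiber hq hA N r)
  intro l hl
  rw [mem_filter, mem_filter] at hl
  rw [mem_filter]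
  exact ⟨hl.1.1, hl.2⟩

/-- Weyl bound for quadratic exponential sums whose leading coefficient has a
rational double `2α ≡ A/q` in lowest terms, `K ≤ q ≤ N²/K`. -/
theorem weyl (δ : ℝ) (hδ : 0 < δ) : ∃ K : ℝ, 0 < K ∧
    ∀ (N q : ℕ) (A z : ℤ) (α β : ℝ), 1 ≤ q → IsCoprime A (q : ℤ) →
      2 * α = (A : ℝ) / q + z → K ≤ N → K ≤ q → K * q ≤ (N : ℝ) ^ 2 →
      ‖∑ n ∈ Finset.range N,
        Complex.exp (2 * Real.pi * Complex.I * ((α * n ^ 2 + β * n : ℝ) : ℂ))‖ ≤ δ * N := by
  set d : ℝ := δ ^ 2 / 16 with hd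
  have hd0 : 0 < d := by positivity
  refine ⟨2 * (5 + 1 / d) / δ ^ 2, by positivity, ?_⟩
  set K : ℝ := 2 * (5 + 1 / d) / δ ^ 2 with hK
  have hK0 : 0 < K := by positivity
  intro N q A z α β hq hA hα hKN hKq hKqN
  have hq0 : (0 : ℝ) < q := by exact_mod_cast hq
  have hN0 : (0 : ℝ) < N := lt_of_lt_of_le hK0 hKN
  -- the sum
  have hS : ∑ n ∈ Finset.range N,
      Complex.exp (2 * Real.pi * Complex.I * ((α * n ^ 2 + β * n : ℝ) : ℂ)) =
      ∑ n ∈ range N, e (α * n ^ 2 + β * n) := rfl
  rw [hS]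
  have hv := vdc (fun n => e (α * n ^ 2 + β * n)) (fun n => norm_e _) N
  -- differenced sums
  have hG : ∀ l M : ℕ, ‖∑ n ∈ range M, e (α * ((n + l : ℕ) : ℝ) ^ 2 + β * ((n + l : ℕ) : ℝ)) *
      (starRingEnd ℂ) (e (α * n ^ 2 + β * n))‖ =
      ‖∑ n ∈ range M, e ((rho A q l : ℝ) / q) ^ n‖ := by
    intro l M
    have h1 : ∀ n : ℕ, e (α * ((n + l : ℕ) : ℝ) ^ 2 + β * ((n + l : ℕ) : ℝ)) *
        (starRingEnd ℂ) (e (α * n ^ 2 + β * n)) =
        e (α * l ^ 2 + β * l) * e ((rho A q l : ℝ) / q) ^ n := by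
      intro n
      rw [conj_e, ← e_add, ← e_nat_mul]
      have h2 := rho_spec (A := A) hq l
      have h3 := Int.emod_add_mul_ediv (A * l) q
      have h4 : (A : ℝ) * l = (rho A q l : ℝ) + q * (((A * l) / (q : ℤ) : ℤ) : ℝ) := by
        have : ((A * l : ℤ) : ℝ) = (((rho A q l : ℕ) : ℤ) : ℝ) +
            ((q : ℤ) : ℝ) * (((A * l) / (q : ℤ) : ℤ) : ℝ) := by
          rw [h2, ← Int.cast_mul, ← Int.cast_add, h3]
        push_cast at this
        exact this
      have h5 : α * ((n + l : ℕ) : ℝ) ^ 2 + β * ((n + l : ℕ) : ℝ) + -(α * n ^ 2 + β * n) =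
          (α * l ^ 2 + β * l) + (n * ((rho A q l : ℝ) / q) +
            ((n * ((A * l) / (q : ℤ)) + n * z * l : ℤ) : ℝ)) := by
        have h6 : (rho A q l : ℝ) / q = (2 * α - z) * l - (((A * l) / (q : ℤ) : ℤ) : ℝ) := by
          rw [hα]
          have : (A : ℝ) / q * l = (rho A q l : ℝ) / q + (((A * l) / (q : ℤ) : ℤ) : ℝ) := by
            rw [div_mul_eq_mul_div, h4]
            field_simp
          have h7 : ((A : ℝ) / q + z - z) * l = (A : ℝ) / q * l := by ring
          rw [h7, this]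
          ring
        rw [h6]
        push_cast
        ring
      rw [h5, e_add, e_add (↑n * (↑(rho A q l) / ↑q)), e_int, mul_one]
    simp_rw [h1]
    rw [← mul_sum, norm_mul, norm_e, one_mul]
  -- threshold
  set T : ℕ := ⌊d * min (q : ℝ) N⌋₊ with hT
  have hmin0 : (0 : ℝ) < min (q : ℝ) N := lt_min hq0 hN0
  have hT1 : (T : ℝ) ≤ d * min (q : ℝ) N := Nat.floor_le (by positivity)
  have hT2 : d * min (q : ℝ) N < T + 1 := Nat.lt_floor_add_one _
  set R : Finset ℕ := range (T + 1) ∪ Ico (q - T) q with hR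
  have hRcard : R.card ≤ 2 * T + 1 := by
    refine (card_union_le _ _).trans ?_
    rw [card_range, Nat.card_Ico]
    omega
  have hGl : ∀ l M : ℕ, M ≤ N → ‖∑ n ∈ range M, e ((rho A q l : ℝ) / q) ^ n‖ ≤
      (if rho A q l ∈ R then (N : ℝ) else 0) + q / (2 * (T + 1)) := by
    intro l M hM
    split_ifs with hmem
    · have h1 : ‖∑ n ∈ range M, e ((rho A q l : ℝ) / q) ^ n‖ ≤ M := by
        refine (norm_sum_le _ _).trans ?_
        simp [norm_pow, norm_e]
      have h2 : (M : ℝ) ≤ N := by exact_mod_cast hM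
      have h3 : (0 : ℝ) ≤ q / (2 * (T + 1)) := by positivity
      linarith
    · rw [zero_add]
      rw [hR, mem_union, mem_range, mem_Ico] at hmem
      push Not at hmem
      have hlt := rho_lt (A := A) hq l
      have h1 : T + 1 ≤ rho A q l := hmem.1
      have h2 : T + 1 ≤ q - rho A q l := by
        by_contra hcon
        have : q - T ≤ rho A q l := by omega
        have := hmem.2 this
        omega
      have h3 : ((T : ℝ) + 1) / q ≤ (rho A q l : ℝ) / q := by
        apply div_le_div_of_nonneg_right _ hq0.le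
        exact_mod_cast h1
      have h4 : ((T : ℝ) + 1) / q ≤ 1 - (rho A q l : ℝ) / q := by
        rw [le_sub_iff_add_le, ← add_div, div_le_one hq0]
        have : T + 1 + rho A q l ≤ q := by omega
        exact_mod_cast this
      refine (geom_bound (by positivity) h3 h4 M).trans ?_
      apply le_of_eq
      field_simp
  have hsum : ∑ l ∈ Ico 1 N, ‖∑ n ∈ range (N - l),
      e (α * ((n + l : ℕ) : ℝ) ^ 2 + β * ((n + l : ℕ) : ℝ)) *
      (starRingEnd ℂ) (e (α * n ^ 2 + β * n))‖ ≤
      (2 * T + 1) * (((N / q : ℕ) : ℝ) + 1) * N + N * (q / (2 * (T + 1))) := by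
    have h1 : ∀ l ∈ Ico 1 N, ‖∑ n ∈ range (N - l),
        e (α * ((n + l : ℕ) : ℝ) ^ 2 + β * ((n + l : ℕ) : ℝ)) *
        (starRingEnd ℂ) (e (α * n ^ 2 + β * n))‖ ≤
        (if rho A q l ∈ R then (N : ℝ) else 0) + q / (2 * (T + 1)) := by
      intro l _
      rw [hG]
      exact hGl l _ (Nat.sub_le _ _)
    refine (sum_le_sum h1).trans ?_
    have h2 : ∑ l ∈ Ico 1 N, ((if rho A q l ∈ R then (N : ℝ) else 0) + q / (2 * (T + 1))) ≤
        ∑ l ∈ range N, ((if rho A q l ∈ R then (N : ℝ) else 0) + q / (2 * (T + 1))) := by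
      apply sum_le_sum_of_subset_of_nonneg
      · intro x hx
        rw [mem_Ico] at hx
        rw [mem_range]
        exact hx.2
      · intro x _ _
        have h3 : (0 : ℝ) ≤ q / (2 * (T + 1)) := by positivity
        split_ifs <;> linarith
    refine h2.trans ?_
    rw [sum_add_distrib, sum_const, card_range, nsmul_eq_mul]
    apply add_le_add _ (le_refl _)
    rw [← sum_filter, sum_const, nsmul_eq_mul]
    apply mul_le_mul_of_nonneg_right _ hN0.le
    have h3 := count_set hq hA N R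
    have h4 : ((range N).filter (fun l => rho A q l ∈ R)).card ≤ (2 * T + 1) * (N / q + 1) :=
      h3.trans (Nat.mul_le_mul_right _ hRcard)
    exact_mod_cast h4
  have hbound : (2 * T + 1) * (((N / q : ℕ) : ℝ) + 1) * N + N * (q / (2 * (T + 1))) ≤
      N ^ 2 * (4 * d + 2 / K + 1 / (2 * d * K)) := by
    have hKle : (1 : ℝ) / q ≤ 1 / K := one_div_le_one_div_of_le hK0 hKq
    have hKN' : (N : ℝ) ≤ N ^ 2 / K := by
      rw [le_div_iff₀ hK0]
      nlinarith
    rcases le_or_gt q N with hqN | hqN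
    · have hqN' : (q : ℝ) ≤ N := by exact_mod_cast hqN
      rw [min_eq_left hqN'] at hT1 hT2
      have h1 : (((N / q : ℕ) : ℝ) + 1) ≤ 2 * N / q := by
        have h2 : ((N / q : ℕ) : ℝ) ≤ N / q := Nat.cast_div_le
        have h3 : (1 : ℝ) ≤ N / q := by rw [one_le_div hq0]; exact hqN'
        have h4 : (2 : ℝ) * N / q = N / q + N / q := by ring
        rw [h4]
        linarith
      have h5 : (2 * (T : ℝ) + 1) * (((N / q : ℕ) : ℝ) + 1) ≤ (2 * (d * q) + 1) * (2 * N / q) := by
        apply mul_le_mul (by linarith) h1 (by positivity) (by positivity)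
      have h6 : (2 * (d * q) + 1) * (2 * N / q) * N = N ^ 2 * (4 * d + 2 * (1 / q)) := by
        field_simp
        ring
      have h7 : (N : ℝ) ^ 2 * (4 * d + 2 * (1 / q)) ≤ N ^ 2 * (4 * d + 2 * (1 / K)) := by
        apply mul_le_mul_of_nonneg_left _ (by positivity)
        linarith
      have h8 : (N : ℝ) * (q / (2 * (T + 1))) ≤ N ^ 2 * (1 / (2 * d * K)) := by
        have h9 : (q : ℝ) / (2 * (T + 1)) ≤ 1 / (2 * d) := by
          rw [div_le_div_iff₀ (by positivity) (by positivity)]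
          nlinarith
        calc (N : ℝ) * (q / (2 * (T + 1))) ≤ N * (1 / (2 * d)) :=
              mul_le_mul_of_nonneg_left h9 hN0.le
          _ ≤ (N ^ 2 / K) * (1 / (2 * d)) :=
              mul_le_mul_of_nonneg_right hKN' (by positivity)
          _ = N ^ 2 * (1 / (2 * d * K)) := by field_simp
      calc (2 * (T : ℝ) + 1) * (((N / q : ℕ) : ℝ) + 1) * N + N * (q / (2 * (T + 1)))
          ≤ (2 * (d * q) + 1) * (2 * N / q) * N + N ^ 2 * (1 / (2 * d * K)) := by
            apply add_le_add _ h8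
            exact mul_le_mul_of_nonneg_right h5 hN0.le
        _ ≤ N ^ 2 * (4 * d + 2 * (1 / K)) + N ^ 2 * (1 / (2 * d * K)) := by
            rw [h6]; linarith
        _ = N ^ 2 * (4 * d + 2 / K + 1 / (2 * d * K)) := by ring
    · have hqN' : (N : ℝ) ≤ q := by exact_mod_cast hqN.le
      rw [min_eq_right hqN'] at hT1 hT2
      have h1 : N / q = 0 := Nat.div_eq_of_lt hqN
      rw [h1]
      have h2 : (2 * (T : ℝ) + 1) * (((0 : ℕ) : ℝ) + 1) * N ≤ (2 * (d * N) + 1) * N := by
        apply mul_le_mul_of_nonneg_right _ hN0.le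
        push_cast
        linarith
      have h8 : (N : ℝ) * (q / (2 * (T + 1))) ≤ N ^ 2 * (1 / (2 * d * K)) := by
        have h9 : (N : ℝ) / (2 * (T + 1)) ≤ 1 / (2 * d) := by
          rw [div_le_div_iff₀ (by positivity) (by positivity)]
          nlinarith
        have h10 : (q : ℝ) ≤ N ^ 2 / K := by
          rw [le_div_iff₀ hK0]
          linarith
        calc (N : ℝ) * (q / (2 * (T + 1))) = (N / (2 * (T + 1))) * q := by ring
          _ ≤ (1 / (2 * d)) * q := mul_le_mul_of_nonneg_right h9 hq0.le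
          _ ≤ (1 / (2 * d)) * (N ^ 2 / K) := mul_le_mul_of_nonneg_left h10 (by positivity)
          _ = N ^ 2 * (1 / (2 * d * K)) := by field_simp
      calc (2 * (T : ℝ) + 1) * (((0 : ℕ) : ℝ) + 1) * N + N * (q / (2 * (T + 1)))
          ≤ (2 * (d * N) + 1) * N + N ^ 2 * (1 / (2 * d * K)) := add_le_add h2 h8
        _ = 2 * d * N ^ 2 + N + N ^ 2 * (1 / (2 * d * K)) := by ring
        _ ≤ 4 * d * N ^ 2 + 2 * (N ^ 2 / K) + N ^ 2 * (1 / (2 * d * K)) := by
            have : 0 ≤ d * (N : ℝ) ^ 2 := by positivity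
            have : (0 : ℝ) ≤ N ^ 2 / K := by positivity
            linarith
        _ = N ^ 2 * (4 * d + 2 / K + 1 / (2 * d * K)) := by ring
  have hfinal : ‖∑ n ∈ range N, e (α * n ^ 2 + β * n)‖ ^ 2 ≤ (δ * N) ^ 2 := by
    have h1 : (N : ℝ) ≤ N ^ 2 / K := by
      rw [le_div_iff₀ hK0]
      nlinarith
    calc ‖∑ n ∈ range N, e (α * n ^ 2 + β * n)‖ ^ 2
        ≤ N + 2 * (N ^ 2 * (4 * d + 2 / K + 1 / (2 * d * K))) := by
          refine hv.trans ?_
          have := hsum.trans hbound
          linarith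
      _ ≤ N ^ 2 / K + 2 * (N ^ 2 * (4 * d + 2 / K + 1 / (2 * d * K))) := by linarith
      _ = N ^ 2 * (8 * d + (5 + 1 / d) / K) := by
          field_simp
          ring
      _ = (δ * N) ^ 2 := by
          have h2 : (5 + 1 / d) / K = δ ^ 2 / 2 := by
            rw [hK]
            have : 5 + 1 / d ≠ 0 := by positivity
            field_simp
          rw [h2, hd]
          ring
  exact le_of_sq_le_sq hfinal (by positivity)

end Pool.Agent.Helper170.Weyl
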